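import Pool.Agent.Q8.HF.Basic

/-!
# MP_4a7e1d_al, Q1: a hyperfield quotient of a skew field that is not a quotient of a field

Let `ℍ[ℚ]` be the skew field of rational quaternions and `normOne` its subgroup of elements of
norm `1`.  It is normal with abelian quotient, and the hyperfield `ℍ[ℚ]/normOne` is not isomorphic
to `K/Δ` for any field `K` and any subgroup `Δ` of `Kˣ`.

Idea: an isomorphism gives a multiplicative map `ψ : K → ℚ≥0` for which `√ψ` is an absolute value
on `K`; it is archimedean with `|n| = n`, so `K` embeds isometrically into `ℂ` (Gelfand-Mazur).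
Then `|x|²` is rational for all `x ∈ K`, but `K` contains elements `u = ±i` and
`w = (1 ± √-3)/2`, and `|u + w|² = 2 ± √3`.
-/

namespace Pool.Agent.Results.MP_4a7e1d_al.QuaternionQuotient

open Quaternion Q8.HF

universe u

theorem result :
    (∀ a b : (ℍ[ℚ])ˣ ⧸ normOne, a * b = b * a) ∧
    ∀ (K : Type u) [Field K] (Δ : Subgroup Kˣ),
      ¬ ∃ f : WithZero ((ℍ[ℚ])ˣ ⧸ normOne) → WithZero (Kˣ ⧸ Δ), IsHyperIso normOne Δ f := by
  constructor
  · intro a b
    obtain ⟨x, rfl⟩ := QuotientGroup.mk_surjective a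
    obtain ⟨y, rfl⟩ := QuotientGroup.mk_surjective b
    rw [← QuotientGroup.mk_mul, ← QuotientGroup.mk_mul, QuotientGroup.eq, mem_normOne]
    have hx : normSq (x : ℍ[ℚ]) ≠ 0 := Quaternion.normSq_ne_zero.mpr x.ne_zero
    have hy : normSq (y : ℍ[ℚ]) ≠ 0 := Quaternion.normSq_ne_zero.mpr y.ne_zero
    rw [Units.val_mul, Units.val_inv_eq_inv_val, map_mul, map_inv₀, Units.val_mul, Units.val_mul,
      map_mul, map_mul]
    field_simp
  · rintro K _ Δ ⟨f, hf⟩
    exact no_iso Δ f hf

end Pool.Agent.Results.MP_4a7e1d_al.QuaternionQuotient
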